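import Pool.Agent.H56.UD.DD
import Pool.Agent.H56.UD.BDefs
import Pool.Agent.H66.GEO.Defs

/-!
# ROB => DIM (MP_8f2e1c_an), chapter X (3.5, 3.6 of think 1842): definitions

`LT`: limit systems without gap discs (the fields of `LS` of H56/UD which do not use them). `Lr`: THE RELATION `G lifts H on S`
(for H66/GEO `LS Q Lf`, `Q = Ph 𝒰 P`, `Lf = Lr 𝒰 F D P`): pointwise `Gd` (H56/UD/BDefs), the germs are determined by it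
(good points have one value, H43/UB). For the frames of ROB: `F = Fn f z k x R σ`, `D = Dn ..`, `P = Pn P x R` with `x n = c`.
`b1`: `ω = 1`. `Wt`: base windows at `c`. `Tw`: towers of windows of height `s` (finite stage). `Nvs`: sequences of windows with
frames in their collars, the input of the chapter (from (NV)).
-/

set_option autoImplicit false

open Filter Topology Metric Set MeasureTheory

namespace Pool.Agent.H64.XL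

open Pool.Agent.H56.UD (dm Fn Dn Pn Ph Gd)
open Pool.Agent.H66.GEO (Bl BB)

/-- limit systems (without gap discs) -/
structure LT (𝒰 : Ultrafilter ℕ) (F : ℕ → ℂ → ℂ) (D P : ℕ → Set ℂ) : Prop where
  Pc : ∀ n, IsClosed (P n)
  P0 : ∀ n, (0 : ℂ) ∈ P n
  Do : ∀ n, IsOpen (D n)
  Fd : ∀ n, DifferentiableOn ℂ (F n) (D n)
  lift : ∀ M : ℝ, ∀ᶠ n in (𝒰 : Filter ℕ), ∀ (S : Set ℂ) (H : ℂ → ℂ) (q s : ℂ), Convex ℝ S → IsOpen S →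
    DifferentiableOn ℂ H S → (∀ u ∈ S, ‖H u‖ < M ∧ H u ∉ P n) → q ∈ S → s ∈ D n → F n s = H q →
    ∃ G : ℂ → ℂ, DifferentiableOn ℂ G S ∧ G q = s ∧ ∀ u ∈ S, G u ∈ D n ∧ F n (G u) = H u

/-- `G` lifts `H` on `S` -/
def Lr (𝒰 : Ultrafilter ℕ) (F : ℕ → ℂ → ℂ) (D P : ℕ → Set ℂ) (S : Set ℂ) (H G : ℂ → ℂ) : Prop :=
  IsOpen S ∧ Convex ℝ S ∧ DifferentiableOn ℂ H S ∧ (∀ u ∈ S, deriv H u ≠ 0) ∧ DifferentiableOn ℂ G S ∧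
    ∀ u ∈ S, Gd 𝒰 F D P (H u) (G u)

/-- `ω = 1` -/
noncomputable def b1 : ℕ → ℂ := fun _ => 1

/-- base windows at `c` (in the ball `ball c ε`, core `θ`), symmetric (`f` takes equal values at `χ v` and `χ (-v)`), of
bounded geometry `M` -/
structure Wt (f : ℂ → ℂ) (U J P : Set ℂ) (δ : ℝ) (c : ℂ) (θ M ε : ℝ) (χ : ℂ → ℂ) : Prop where
  d : DifferentiableOn ℂ χ (ball 0 1)
  i : InjOn χ (ball 0 1)
  c0 : χ 0 = c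
  hU : ∀ v ∈ ball (0 : ℂ) 1, χ v ∈ thickening δ J ∧ χ v ∈ U
  e : ∀ v ∈ ball (0 : ℂ) 1, χ v ∈ ball c ε
  sy : ∀ v ∈ ball (0 : ℂ) 1, f (χ (-v)) = f (χ v)
  of : ∀ v : ℂ, θ < ‖v‖ → ‖v‖ < 1 → χ v ∉ P
  bd : ∀ v ∈ ball (0 : ℂ) 1, ‖χ v - c‖ ≤ M * ‖deriv χ 0‖

/-- towers of windows of height `s` over the base window `χ 0`: `χ (i+1)` is a pull back of `χ i` of degree `2` with critical
point `c`, `t i` decreasing visits of `z` in `{‖BB‖ < r}`, `t 0` the first visit in `χ 0 '' ball 0 r` -/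
structure Tw (f : ℂ → ℂ) (U J P : Set ℂ) (δ : ℝ) (c z : ℂ) (θ r : ℝ) (s : ℕ) (k t : ℕ → ℕ) (α x : ℕ → ℂ)
    (χ : ℕ → ℂ → ℂ) : Prop where
  d : ∀ i ≤ s, DifferentiableOn ℂ (χ i) (ball 0 1)
  i : ∀ i ≤ s, InjOn (χ i) (ball 0 1)
  c0 : ∀ i ≤ s, χ i 0 = c
  hU : ∀ i ≤ s, ∀ v ∈ ball (0 : ℂ) 1, χ i v ∈ U
  sy : ∀ i ≤ s, ∀ v ∈ ball (0 : ℂ) 1, f (χ i (-v)) = f (χ i v)
  kp : ∀ i < s, 1 ≤ k i
  st : ∀ i < s, ∀ v ∈ ball (0 : ℂ) 1, (∀ j < k i, f^[j] (χ (i + 1) v) ∈ U) ∧ f^[k i] (χ (i + 1) v) = χ i (Bl 1 (α i) v)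
  al : ∀ i < s, ‖α i‖ < 1
  cv : ∀ i < s, ‖BB b1 α i (α i)‖ ≤ θ
  of : ∀ i ≤ s, ∀ v ∈ ball (0 : ℂ) 1, θ < ‖BB b1 α i v‖ → χ i v ∉ P
  tm : ∀ i ≤ s, x i ∈ ball (0 : ℂ) 1 ∧ ‖BB b1 α i (x i)‖ < r ∧ χ i (x i) = f^[t i] z
  td : ∀ i < s, t (i + 1) < t i
  fe : ∀ m < t 0, f^[m] z ∉ χ 0 '' ball 0 r

/-- the input of chapter X: base windows `χ n` with radii `ε n → 0` and frames (times `m n`, branches `g n` seen from `z`) at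
points `χ n (y n)` of the collars `θ < ‖v‖ ≤ θ'` -/
structure Nvs (f : ℂ → ℂ) (U J P : Set ℂ) (δ : ℝ) (c z : ℂ) (θ θ' M : ℝ) (ε : ℕ → ℝ) (m : ℕ → ℕ) (y : ℕ → ℂ)
    (χ g : ℕ → ℂ → ℂ) : Prop where
  θ0 : 0 < θ
  θθ : θ < θ'
  θ1 : θ' < 1
  M1 : 1 ≤ M
  εt : Tendsto ε atTop (𝓝 0)
  w : ∀ n, Wt f U J P δ c θ M (ε n) (χ n)
  y0 : ∀ n, θ < ‖y n‖ ∧ ‖y n‖ ≤ θ'
  gd : ∀ n, DifferentiableOn ℂ (g n) (ball (χ n (y n)) (‖deriv (χ n) 0‖ / M))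
  gv : ∀ n, ∀ w ∈ ball (χ n (y n)) (‖deriv (χ n) 0‖ / M), g n w ∈ dm f U J δ (m n) ∧ f^[m n] (g n w) = w
  gz : ∀ n, ‖g n (χ n (y n)) - z‖ ≤ M * ‖deriv (χ n) 0‖ * ‖deriv (g n) (χ n (y n))‖
  gt : Tendsto (fun n => ‖deriv (χ n) 0‖ * ‖deriv (g n) (χ n (y n))‖) atTop (𝓝 0)

end Pool.Agent.H64.XL
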