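import Pool.Agent.H64.XL.Defs
import Pool.Agent.H41.XF.Nea

/-!
# ROB => DIM, chapter X: the frames of `Nvs` give a lift at a point of the collar (field `ex` of `XS`)

`z' n = (g n (χ n (y n)) - z) / σ n`, `σ n = R n * deriv (g n) (χ n (y n))`, is bounded by `M` (`gz`); `Fn .. n (z' n) = (χ n (y n) - c) / R n → φ0 y0`
where `y n → y0` along `𝒰` (`‖y n‖ = θ'`), `deriv (Fn .. n) (z' n) = 1` (chain rule: `f^[m n] ∘ g n = id` near `χ n (y n)`). `φ0 y0 ∉ Ph`: `g n` is defined on a ball of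
radius `‖R n‖ / M` and has values in `dm`, but the ball need not be off `P`: use `χ n (y n)`, `‖y n‖ > θ`, so `χ n '' (ball (y n) s)` is off `P` and contains a ball of radius
`s' ‖R n‖` (Koebe, `univ_cover`). So `Gd 𝒰 F D P (φ0 y0) s`, `s = lim z' n`; `gb` (H41/XF/Gbr) on a small closed ball off `Ph`: `G = g0` there, `H = id`.
-/

set_option autoImplicit false

open Filter Topology Metric Set MeasureTheory

namespace Pool.Agent.H64.XL

open Pool.Agent.H56.UD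

variable {f : ℂ → ℂ} {U J P Cr : Set ℂ} {δ : ℝ} {η : ℂ → ℂ → ℂ} {ρ : ℝ} {c z : ℂ} {θ θ' M : ℝ}
  {ε : ℕ → ℝ} {m : ℕ → ℕ} {y : ℕ → ℂ} {χ g : ℕ → ℂ → ℂ} {𝒰 : Ultrafilter ℕ}

/-- the scale at `c` -/
noncomputable def Rs (χ : ℕ → ℂ → ℂ) (n : ℕ) : ℂ := deriv (χ n) 0

/-- the scale at `z` -/
noncomputable def Ss (χ g : ℕ → ℂ → ℂ) (y : ℕ → ℂ) (n : ℕ) : ℂ := deriv (χ n) 0 * deriv (g n) (χ n (y n))

/-- limits along an ultrafilter in a compact set (copy of `lim_cpt` of H56/UD/DB) -/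
private theorem lim_cpt' (𝒰 : Ultrafilter ℕ) {K : Set ℂ} (hK : IsCompact K) {v : ℕ → ℂ} (hv : ∀ n, v n ∈ K) :
    ∃ a ∈ K, Tendsto v (𝒰 : Filter ℕ) (𝓝 a) := by
  have h1 : ((𝒰.map v : Ultrafilter ℂ) : Filter ℂ) ≤ 𝓟 K := by
    rw [Ultrafilter.coe_map, le_principal_iff, mem_map]
    exact Eventually.of_forall hv
  obtain ⟨a, ha, hl⟩ := hK.ultrafilter_le_nhds (𝒰.map v) h1
  exact ⟨a, ha, hl⟩

theorem rs_ne (hN : Nvs f U J P δ c z θ θ' M ε m y χ g) (n : ℕ) : Rs χ n ≠ 0 :=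
  Pool.Agent.H43.UB.uh_der isOpen_ball (hN.w n).d (hN.w n).i (mem_ball_self one_pos)

private theorem rs_pos (hN : Nvs f U J P δ c z θ θ' M ε m y χ g) (n : ℕ) : 0 < ‖deriv (χ n) 0‖ / M :=
  div_pos (norm_pos_iff.2 (rs_ne hN n)) (lt_of_lt_of_le one_pos hN.M1)

theorem ss_ne (hN : Nvs f U J P δ c z θ θ' M ε m y χ g) (n : ℕ) : Ss χ g y n ≠ 0 := by
  refine mul_ne_zero (rs_ne hN n) ?_
  refine Pool.Agent.H43.UB.uh_der isOpen_ball (hN.gd n) (fun u hu v hv huv => ?_) (mem_ball_self (rs_pos hN n))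
  rw [← (hN.gv n u hu).2, ← (hN.gv n v hv).2, huv]

theorem rs_t (hU : (𝒰 : Filter ℕ) ≤ atTop) (hN : Nvs f U J P δ c z θ θ' M ε m y χ g) : Tendsto (Rs χ) (𝒰 : Filter ℕ) (𝓝 0) := by
  have h1 : Tendsto (fun n => 2 * ε n) (𝒰 : Filter ℕ) (𝓝 0) := by
    have := (hN.εt.mono_left hU).const_mul 2
    rwa [mul_zero] at this
  refine squeeze_zero_norm (fun n => ?_) h1
  have hsub : closedBall (0 : ℂ) (1 / 2) ⊆ ball 0 1 := closedBall_subset_ball (by norm_num)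
  have h2 : ‖deriv (fun v => χ n v - c) 0‖ ≤ ε n / (1 / 2) := by
    refine Complex.norm_deriv_le_of_forall_mem_sphere_norm_le (by norm_num) ?_ fun v hv => ?_
    · exact DifferentiableOn.diffContOnCl_ball (((hN.w n).d.mono hsub).sub_const c) le_rfl
    · have h3 := (hN.w n).e v (hsub (sphere_subset_closedBall hv))
      rw [mem_ball, dist_eq_norm] at h3
      exact h3.le
  rw [deriv_sub_const] at h2
  calc ‖Rs χ n‖ = ‖deriv (χ n) 0‖ := rfl
    _ ≤ ε n / (1 / 2) := h2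
    _ = 2 * ε n := by ring

theorem ss_t (hU : (𝒰 : Filter ℕ) ≤ atTop) (hN : Nvs f U J P δ c z θ θ' M ε m y χ g) :
    Tendsto (Ss χ g y) (𝒰 : Filter ℕ) (𝓝 0) := by
  refine squeeze_zero_norm (fun n => ?_) (hN.gt.mono_left hU)
  rw [Ss, norm_mul]

theorem ex_lr (h : PS f U J P Cr δ η ρ) (hU : (𝒰 : Filter ℕ) ≤ atTop) (hN : Nvs f U J P δ c z θ θ' M ε m y χ g)
    (hy : ∀ n, ‖y n‖ = θ')
    (hL : LT 𝒰 (Fn f (fun _ => z) m (fun _ => c) (Rs χ) (Ss χ g y)) (Dn f U J δ (fun _ => z) m (Ss χ g y)) (Pn P (fun _ => c) (Rs χ)))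
    {φ0 : ℂ → ℂ} (hφd : DifferentiableOn ℂ φ0 (ball 0 1))
    (hφ : TendstoLocallyUniformlyOn (fun n v => (χ n v - c) / Rs χ n) φ0 (𝒰 : Filter ℕ) (ball 0 1)) :
    ∃ (T : Set ℂ) (H G : ℂ → ℂ) (u x : ℂ), Lr 𝒰 (Fn f (fun _ => z) m (fun _ => c) (Rs χ) (Ss χ g y))
      (Dn f U J δ (fun _ => z) m (Ss χ g y)) (Pn P (fun _ => c) (Rs χ)) T H G ∧ u ∈ T ∧ ‖x‖ < 1 ∧ θ < ‖x‖ ∧ H u = φ0 x := by
  have hθ1 := hN.θ1
  have hθθ := hN.θθ
  have hθ0 := hN.θ0
  -- the limit of the points `y n`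
  obtain ⟨y0, -, hy0⟩ := lim_cpt' 𝒰 (isCompact_closedBall (0 : ℂ) 1) (v := y) (fun n => by
    rw [mem_closedBall, dist_zero_right, hy n]
    exact hθ1.le)
  have hny : ‖y0‖ = θ' := by
    refine tendsto_nhds_unique hy0.norm ?_
    simp only [hy]
    exact tendsto_const_nhds
  have hyb : y0 ∈ ball (0 : ℂ) 1 := by rw [mem_ball, dist_zero_right, hny]; exact hθ1
  have hynb : ∀ n, y n ∈ ball (0 : ℂ) 1 := fun n => by rw [mem_ball, dist_zero_right, hy n]; exact hθ1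
  have hyw : Tendsto y (𝒰 : Filter ℕ) (𝓝[ball 0 1] y0) :=
    tendsto_nhdsWithin_iff.2 ⟨hy0, Eventually.of_forall hynb⟩
  -- the normalised windows
  have hχd : ∀ᶠ n in (𝒰 : Filter ℕ), DifferentiableOn ℂ (fun v => (χ n v - c) / Rs χ n) (ball 0 1) :=
    Eventually.of_forall fun n => ((hN.w n).d.sub_const c).div_const _
  have hχi : ∀ᶠ n in (𝒰 : Filter ℕ), InjOn (fun v => (χ n v - c) / Rs χ n) (ball 0 1) := by
    refine Eventually.of_forall fun n u hu v hv huv => (hN.w n).i hu hv ?_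
    have h1 : χ n u - c = χ n v - c := (div_left_inj' (rs_ne hN n)).1 huv
    exact sub_left_injective h1
  have hd0 : deriv φ0 0 = 1 := by
    have h1 := hφ.deriv hχd isOpen_ball
    have h2 := h1.tendsto_at (mem_ball_self (x := (0 : ℂ)) one_pos)
    refine tendsto_nhds_unique h2 (tendsto_const_nhds.congr fun n => ?_)
    show (1 : ℂ) = deriv (fun v => (χ n v - c) / Rs χ n) 0
    rw [deriv_div_const, deriv_sub_const]
    exact (div_self (rs_ne hN n)).symm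
  have hφi : InjOn φ0 (ball 0 1) :=
    Pool.Agent.H43.UB.uh_inj 𝒰 isOpen_ball (convex_ball 0 1).isPreconnected hχd hφ hχi
      ⟨0, mem_ball_self one_pos, by rw [hd0]; exact one_ne_zero⟩
  have hnc : ¬ ∀ᶠ u in 𝓝 y0, φ0 u = φ0 y0 := by
    intro hc
    have h6 : ∀ᶠ u in 𝓝[≠] y0, φ0 u = φ0 y0 ∧ u ∈ ball (0 : ℂ) 1 ∧ u ≠ y0 :=
      ((hc.and (isOpen_ball.mem_nhds hyb)).filter_mono nhdsWithin_le_nhds).and self_mem_nhdsWithin |>.mono
        fun u hu => ⟨hu.1.1, hu.1.2, hu.2⟩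
    obtain ⟨u, hu1, hu2, hu3⟩ := h6.exists
    exact hu3 (hφi hu2 hyb hu1)
  -- `φ0 y0` is off the limit set
  have hoff : φ0 y0 ∉ Ph 𝒰 (Pn P (fun _ => c) (Rs χ)) := by
    intro hc
    obtain ⟨p, hp1, hp2⟩ := Pool.Agent.H43.UB.ph_app hL.Pc (fun n => ⟨0, hL.P0 n⟩) hc
    have hs : 0 < min (θ' - θ) (1 - θ') := lt_min (by linarith) (by linarith)
    obtain ⟨n, u, hu, hun⟩ := (Pool.Agent.H43.UB.uh_hit 𝒰 isOpen_ball hχd hφ hyb hnc hp2 hs).exists
    have h1 : dist u y0 < min (θ' - θ) (1 - θ') := hu.1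
    have h2 : ‖u‖ ≤ ‖y0‖ + dist u y0 := by
      rw [dist_eq_norm]
      calc ‖u‖ = ‖y0 + (u - y0)‖ := by congr 1; ring
        _ ≤ _ := norm_add_le _ _
    have h3 : ‖y0‖ ≤ ‖u‖ + dist u y0 := by
      rw [dist_comm, dist_eq_norm]
      calc ‖y0‖ = ‖u + (y0 - u)‖ := by congr 1; ring
        _ ≤ _ := norm_add_le _ _
    have h4 := min_le_left (θ' - θ) (1 - θ')
    have h5 : θ < ‖u‖ := by rw [hny] at h3; linarith
    have h6 : ‖u‖ < 1 := by
      have := hu.2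
      rwa [mem_ball, dist_zero_right] at this
    refine (hN.w n).of u h5 h6 ?_
    have h7 : c + Rs χ n * p n ∈ P := hp1 n
    rw [← hun, mul_div_cancel₀ _ (rs_ne hN n)] at h7
    rwa [add_sub_cancel] at h7
  -- the points `z'`
  have hσ := ss_ne hN
  have hM0 : 0 ≤ M := le_trans zero_le_one hN.M1
  obtain ⟨s, -, hs⟩ := lim_cpt' 𝒰 (isCompact_closedBall (0 : ℂ) M) (v := fun n => (g n (χ n (y n)) - z) / Ss χ g y n) (fun n => by
    rw [mem_closedBall, dist_zero_right, norm_div, div_le_iff₀ (norm_pos_iff.2 (hσ n)), Ss, norm_mul, ← mul_assoc]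
    exact hN.gz n)
  have hzz : ∀ n, z + Ss χ g y n * ((g n (χ n (y n)) - z) / Ss χ g y n) = g n (χ n (y n)) := by
    intro n
    rw [mul_div_cancel₀ _ (hσ n)]
    ring
  have hcb : ∀ n, χ n (y n) ∈ ball (χ n (y n)) (‖deriv (χ n) 0‖ / M) := fun n => mem_ball_self (rs_pos hN n)
  have hgd : ∀ n, deriv (g n) (χ n (y n)) ≠ 0 := fun n => (mul_ne_zero_iff.1 (hσ n)).2
  have hch : ∀ n, deriv (f^[m n]) (g n (χ n (y n))) * deriv (g n) (χ n (y n)) = 1 := by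
    intro n
    have h1 : HasDerivAt (f^[m n]) (deriv (f^[m n]) (g n (χ n (y n)))) (g n (χ n (y n))) :=
      ((dm_diff h (m n)).differentiableAt ((dm_open h (m n)).mem_nhds (hN.gv n _ (hcb n)).1)).hasDerivAt
    have h2 : HasDerivAt (g n) (deriv (g n) (χ n (y n))) (χ n (y n)) :=
      ((hN.gd n).differentiableAt (isOpen_ball.mem_nhds (hcb n))).hasDerivAt
    have h3 := h1.comp (χ n (y n)) h2
    have h4 : HasDerivAt (f^[m n] ∘ g n) 1 (χ n (y n)) := by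
      refine (hasDerivAt_id (χ n (y n))).congr_of_eventuallyEq ?_
      filter_upwards [isOpen_ball.mem_nhds (hcb n)] with v hv
      exact (hN.gv n v hv).2
    exact h3.unique h4
  have hder : ∀ n, deriv (Fn f (fun _ => z) m (fun _ => c) (Rs χ) (Ss χ g y) n)
      ((g n (χ n (y n)) - z) / Ss χ g y n) = 1 := by
    intro n
    have h1 : HasDerivAt (f^[m n]) (deriv (f^[m n]) (g n (χ n (y n))))
        (z + Ss χ g y n * ((g n (χ n (y n)) - z) / Ss χ g y n)) := by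
      rw [hzz n]
      exact ((dm_diff h (m n)).differentiableAt ((dm_open h (m n)).mem_nhds (hN.gv n _ (hcb n)).1)).hasDerivAt
    have h2 : HasDerivAt (fun s : ℂ => z + Ss χ g y n * s) (Ss χ g y n) ((g n (χ n (y n)) - z) / Ss χ g y n) := by
      have := ((hasDerivAt_id ((g n (χ n (y n)) - z) / Ss χ g y n)).const_mul (Ss χ g y n)).const_add z
      rwa [mul_one] at this
    have h3 := ((HasDerivAt.comp ((g n (χ n (y n)) - z) / Ss χ g y n) h1 h2).sub_const c).div_const (Rs χ n)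
    have h4 : HasDerivAt (Fn f (fun _ => z) m (fun _ => c) (Rs χ) (Ss χ g y) n)
        (deriv (f^[m n]) (g n (χ n (y n))) * Ss χ g y n / Rs χ n) ((g n (χ n (y n)) - z) / Ss χ g y n) := h3
    rw [h4.deriv]
    have h5 : deriv (f^[m n]) (g n (χ n (y n))) * Ss χ g y n =
        Rs χ n * (deriv (f^[m n]) (g n (χ n (y n))) * deriv (g n) (χ n (y n))) := by
      rw [Ss, Rs]
      ring
    rw [h5, hch n, mul_one, div_self (rs_ne hN n)]
  have hGd : Gd 𝒰 (Fn f (fun _ => z) m (fun _ => c) (Rs χ) (Ss χ g y)) (Dn f U J δ (fun _ => z) m (Ss χ g y))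
      (Pn P (fun _ => c) (Rs χ)) (φ0 y0) s := by
    refine ⟨hoff, 1, fun n => (g n (χ n (y n)) - z) / Ss χ g y n, Eventually.of_forall fun n => ⟨?_, ?_, ?_⟩, hs, ?_⟩
    · show z + Ss χ g y n * ((g n (χ n (y n)) - z) / Ss χ g y n) ∈ dm f U J δ (m n)
      rw [hzz n]
      exact (hN.gv n _ (hcb n)).1
    · rw [hder n, norm_one, mul_one]
    · rw [hder n, norm_one]
    · have h1 : Tendsto (fun n => (χ n (y n) - c) / Rs χ n) (𝒰 : Filter ℕ) (𝓝 (φ0 y0)) :=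
        hφ.tendsto_comp (hφd.continuousOn y0 hyb) hyb hyw
      refine h1.congr fun n => ?_
      show (χ n (y n) - c) / Rs χ n =
        (f^[m n] (z + Ss χ g y n * ((g n (χ n (y n)) - z) / Ss χ g y n)) - c) / Rs χ n
      rw [hzz n, (hN.gv n _ (hcb n)).2]
  have hopen : (Ph 𝒰 (Pn P (fun _ => c) (Rs χ)))ᶜ ∈ 𝓝 (φ0 y0) :=
    (Pool.Agent.H43.UB.ph_closed (𝒰 := 𝒰) (P := Pn P (fun _ => c) (Rs χ))).isOpen_compl.mem_nhds hoff
  obtain ⟨t, ht, hb⟩ := Metric.nhds_basis_closedBall.mem_iff.1 hopen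
  obtain ⟨_, G, _, _, _, h4, _, _, h7⟩ :=
    Pool.Agent.H41.XF.gb hL hGd ht (Set.disjoint_left.2 fun x hx hx' => hb hx hx')
  refine ⟨ball (φ0 y0) t, id, G, φ0 y0, y0, ⟨isOpen_ball, convex_ball _ _, differentiableOn_id, fun u _ => ?_, h4, h7⟩,
    mem_ball_self ht, ?_, ?_, rfl⟩
  · rw [deriv_id]
    exact one_ne_zero
  · rw [hny]; exact hθ1
  · rw [hny]; exact hθθ

end Pool.Agent.H64.XL
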