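import Pool.Agent.H64.XL.Defs

/-!
# ROB => DIM, chapter X: sequences of towers

If towers of every height exist over all sufficiently small base windows, then the base windows `χ n` of `Nvs` carry towers of
heights `S n → ∞`.
-/

set_option autoImplicit false

open Filter Topology Metric Set MeasureTheory

namespace Pool.Agent.H64.XL

open Pool.Agent.H56.UD (dm Fn Dn Pn Ph Gd)
open Pool.Agent.H66.GEO (Bl BB)

variable {f : ℂ → ℂ} {U J P : Set ℂ} {δ θ θ' M r : ℝ} {c z : ℂ} {ε : ℕ → ℝ} {m : ℕ → ℕ} {y : ℕ → ℂ} {χ g : ℕ → ℂ → ℂ}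

theorem Wt.mono {ε ε' : ℝ} (hε : ε ≤ ε') {χ : ℂ → ℂ} (h : Wt f U J P δ c θ M ε χ) : Wt f U J P δ c θ M ε' χ :=
  ⟨h.d, h.i, h.c0, h.hU, fun v hv => ball_subset_ball hε (h.e v hv), h.sy, h.of, h.bd⟩

theorem seq_tw (hT : ∀ s : ℕ, ∃ e : ℝ, 0 < e ∧ ∀ χ0 : ℂ → ℂ, Wt f U J P δ c θ M e χ0 →
      ∃ (k t : ℕ → ℕ) (α x : ℕ → ℂ) (X : ℕ → ℂ → ℂ), X 0 = χ0 ∧ Tw f U J P δ c z θ r s k t α x X)
    (hN : Nvs f U J P δ c z θ θ' M ε m y χ g) :
    ∃ (S : ℕ → ℕ) (k t : ℕ → ℕ → ℕ) (α x : ℕ → ℕ → ℂ) (X : ℕ → ℕ → ℂ → ℂ), Tendsto S atTop atTop ∧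
      (∀ n, X n 0 = χ n) ∧ ∀ᶠ n in atTop, Tw f U J P δ c z θ r (S n) (k n) (t n) (α n) (x n) (X n) := by
  choose e he hT using hT
  classical
  obtain ⟨S, hS⟩ : ∃ S : ℕ → ℕ, ∀ n, S n = Nat.findGreatest (fun s => ε n ≤ e s) n := ⟨_, fun n => rfl⟩
  have hev : ∀ s : ℕ, ∀ᶠ n in atTop, s ≤ n ∧ ε n ≤ e s := by
    intro s
    filter_upwards [eventually_ge_atTop s, hN.εt.eventually_le_const (he s)] with n h1 h2
    exact ⟨h1, h2⟩
  have hSt : Tendsto S atTop atTop := by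
    rw [Filter.tendsto_atTop]
    intro s
    filter_upwards [hev s] with n hn
    rw [hS]
    exact Nat.le_findGreatest hn.1 hn.2
  have hex : ∀ n, ∃ (k t : ℕ → ℕ) (α x : ℕ → ℂ) (X : ℕ → ℂ → ℂ), X 0 = χ n ∧ (ε n ≤ e 0 →
      Tw f U J P δ c z θ r (S n) k t α x X) := by
    intro n
    by_cases h0 : ε n ≤ e 0
    · have h1 : ε n ≤ e (S n) := by
        rw [hS]
        exact Nat.findGreatest_spec (P := fun s => ε n ≤ e s) (Nat.zero_le n) h0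
      obtain ⟨k, t, α, x, X, h2⟩ := hT (S n) (χ n) ((hN.w n).mono h1)
      exact ⟨k, t, α, x, X, h2.1, fun _ => h2.2⟩
    · exact ⟨fun _ => 0, fun _ => 0, fun _ => 0, fun _ => 0, fun _ => χ n, rfl, fun h => absurd h h0⟩
  choose k t α x X hX0 hX using hex
  refine ⟨S, k, t, α, x, X, hSt, hX0, ?_⟩
  filter_upwards [hev 0] with n hn
  exact hX n hn.2

end Pool.Agent.H64.XL
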