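import Pool.Agent.H64.XL.Defs
import Pool.Agent.H56.WP.Stp
import Pool.Agent.H44.LA.Kb
import Pool.Agent.H18.LA.Main

/-!
# ROB => DIM, chapter X: towers of every height exist over small base windows

`tw_ex`. By induction on the height: the window `X s` is pulled back along the orbit of `z` from the time `t s` (`orb`, H56/WP);
the pull back is not univalent (LEMMA A, H18/LA), so there is a largest critical time; the critical point is `c` because the
windows are small (`sh`) and the orbit of `z` stays away from the other critical points.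
-/

set_option autoImplicit false

open Filter Topology Metric Set MeasureTheory

namespace Pool.Agent.H64.XL

open Pool.Agent.H56.UD Pool.Agent.H56.WP Pool.Agent.H55.PB
open Pool.Agent.H44.LA (kb kb_cov)
open Pool.Agent.H66.GEO (Bl BB)

variable {f : ℂ → ℂ} {U J P Cr E : Set ℂ} {δ b0 : ℝ} {η : ℂ → ℂ → ℂ} {ρ : ℝ} {X hh μ : ℂ → ℂ} {c z : ℂ} {θ r M : ℝ}

/-- the cores -/
noncomputable def th (θ : ℝ) : ℕ → ℝ
  | 0 => θ
  | s + 1 => dth (th θ s)

/-- the radii -/
noncomputable def rr (θ r : ℝ) : ℕ → ℝ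
  | 0 => r
  | s + 1 => Real.sqrt ((th θ s + rr θ r s) / (1 + th θ s * rr θ r s))

theorem th_pos (hθ : 0 < θ) : ∀ s, 0 < th θ s
  | 0 => hθ
  | s + 1 => dth_pos (th_pos hθ s)

theorem th_lt (hθ : 0 < θ) (hθ1 : θ < 1) : ∀ s, th θ s < 1
  | 0 => hθ1
  | s + 1 => dth_lt (th_pos hθ s) (th_lt hθ hθ1 s)

theorem rr_pos (hθ : 0 < θ) (hr : 0 < r) : ∀ s, 0 < rr θ r s
  | 0 => hr
  | s + 1 => by
    have h1 := th_pos hθ s
    have h2 := rr_pos hθ hr s
    exact Real.sqrt_pos.2 (by positivity)

theorem rr_lt (hθ : 0 < θ) (hθ1 : θ < 1) (hr : 0 < r) (hr1 : r < 1) : ∀ s, rr θ r s < 1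
  | 0 => hr1
  | s + 1 => by
    have h1 := th_pos hθ s
    have h2 := rr_pos hθ hr s
    have h3 := th_lt hθ hθ1 s
    have h4 := rr_lt hθ hθ1 hr hr1 s
    show Real.sqrt _ < 1
    rw [Real.sqrt_lt' one_pos, div_lt_iff₀ (by positivity)]
    nlinarith

theorem Bl_one (a x : ℂ) : Bl 1 a x = bet a x := by
  unfold Bl bet
  rw [one_mul]

theorem bb_congr {α α' : ℕ → ℂ} : ∀ {s : ℕ}, (∀ i < s, α i = α' i) → BB b1 α s = BB b1 α' s
  | 0, _ => by
    funext x
    rfl
  | s + 1, h => by
    funext x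
    show BB b1 α s (Bl (b1 s) (α s) x) = BB b1 α' s (Bl (b1 s) (α' s) x)
    rw [bb_congr (s := s) fun i hi => h i (by omega), h s (by omega)]

theorem bb_succ (α : ℕ → ℂ) (s : ℕ) (x : ℂ) : BB b1 α (s + 1) x = BB b1 α s (bet (α s) x) := by
  rw [← Bl_one]
  rfl

theorem bb_lt {α : ℕ → ℂ} : ∀ {s : ℕ}, (∀ i < s, ‖α i‖ < 1) → ∀ v ∈ ball (0 : ℂ) 1, BB b1 α s v ∈ ball (0 : ℂ) 1
  | 0, _, v, hv => hv
  | s + 1, h, v, hv => by
    rw [bb_succ]
    exact bb_lt (fun i hi => h i (by omega)) _ (bet_lt (h s (by omega)) hv)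

/-- the points of level at most `r` stay in a smaller disc -/
theorem bb_rr (hθ : 0 < θ) (hθ1 : θ < 1) (hr : 0 < r) (hr1 : r < 1) {α : ℕ → ℂ} : ∀ {s : ℕ},
    (∀ i < s, ‖α i‖ ≤ th θ i) → ∀ v ∈ ball (0 : ℂ) 1, ‖BB b1 α s v‖ ≤ r → ‖v‖ ≤ rr θ r s
  | 0, _, v, _, h => h
  | s + 1, h, v, hv, h1 => by
    rw [bb_succ] at h1
    have ha : ‖α s‖ ≤ th θ s := h s (by omega)
    have hb : bet (α s) v ∈ ball (0 : ℂ) 1 := bet_lt (ha.trans_lt (th_lt hθ hθ1 s)) hv
    have h2 := bb_rr hθ hθ1 hr hr1 (s := s) (fun i hi => h i (by omega)) _ hb h1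
    have h3 := bet_sq_le (rr_lt hθ hθ1 hr hr1 s) (th_lt hθ hθ1 s) ha (mem_ball_zero_iff.1 hv) h2
    exact Real.le_sqrt_of_sq_le h3

theorem P_pre (h : PS f U J P Cr δ η ρ) {k : ℕ} {w : ℂ} (hw : f^[k] w ∉ P) : w ∉ P :=
  fun h1 => hw (P_it h k h1)

theorem tw_strong (h : PS f U J P Cr δ η ρ) (hX : FX f U J E δ X hh μ b0) (hcP : c ∈ P) (hz : z ∈ E) (hc : c ∈ Cr)
    (hc' : ∀ c' ∈ Cr, c' ≠ c → ∃ ε : ℝ, 0 < ε ∧ ∀ n, f^[n] z ∉ ball c' ε)
    (hrc : ∀ ε : ℝ, 0 < ε → ∀ N : ℕ, ∃ n ≥ N, f^[n] z ∈ ball c ε)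
    (hθ : 0 < θ) (hθr : θ < r) (hr1 : r < 1) : ∀ s : ℕ, ∃ e : ℝ, 0 < e ∧ ∀ e' ≤ e, ∀ χ0 : ℂ → ℂ,
      Wt f U J P δ c θ M e' χ0 → ∃ (k t : ℕ → ℕ) (α x : ℕ → ℂ) (Y : ℕ → ℂ → ℂ) (K : ℕ), Y 0 = χ0 ∧
        Tw f U J P δ c z θ r s k t α x Y ∧ Wd f U J P δ K (th θ s) c e' (Y s) ∧
        (∀ v ∈ ball (0 : ℂ) 1, f^[K] (Y s v) = χ0 (BB b1 α s v)) ∧ (∀ i < s, ‖α i‖ ≤ th θ i) ∧ (1 ≤ s → 1 ≤ K) := by
  have hθ1 : θ < 1 := hθr.trans hr1
  have hr : 0 < r := hθ.trans hθr
  have hcJ : c ∈ J := h.PJ hcP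
  intro s
  induction s with
  | zero =>
    refine ⟨1, one_pos, ?_⟩
    intro e' _ χ0 hW
    -- the first visit
    have hop : χ0 '' ball 0 r ∈ 𝓝 c := by
      have h1 := kb_cov hW.d hW.i (v := 0) (mem_ball_self one_pos) (s := r) hr (by rw [norm_zero, zero_add]; exact hr1.le)
      rw [hW.c0] at h1
      have h2 : 0 < ‖deriv χ0 0‖ := norm_pos_iff.2 (der1 hW.d hW.i (mem_ball_self one_pos))
      exact Filter.mem_of_superset (ball_mem_nhds c (by positivity)) h1
    obtain ⟨e1, he1, he2⟩ := Metric.mem_nhds_iff.1 hop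
    have hex : ∃ n, f^[n] z ∈ χ0 '' ball 0 r := by
      obtain ⟨n, -, hn⟩ := hrc e1 he1 0
      exact ⟨n, he2 hn⟩
    classical
    obtain ⟨x0, hx0, hx1⟩ := Nat.find_spec hex
    have hx2 : ‖x0‖ < r := mem_ball_zero_iff.1 hx0
    have hx3 : x0 ∈ ball (0 : ℂ) 1 := mem_ball_zero_iff.2 (hx2.trans hr1)
    refine ⟨fun _ => 0, fun _ => Nat.find hex, fun _ => 0, fun _ => x0, fun _ => χ0, 0, rfl, ?_, ?_, ?_, ?_, ?_⟩
    · refine ⟨fun _ _ => hW.d, fun _ _ => hW.i, fun _ _ => hW.c0, fun _ _ v hv => (hW.hU v hv).2, fun _ _ => hW.sy, ?_, ?_,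
        ?_, ?_, ?_, ?_, ?_, ?_⟩
      · intro i hi
        omega
      · intro i hi
        omega
      · intro i hi
        omega
      · intro i hi
        omega
      · intro i hi v hv h1
        obtain rfl : i = 0 := by omega
        exact hW.of v h1 (mem_ball_zero_iff.1 hv)
      · intro i hi
        obtain rfl : i = 0 := by omega
        exact ⟨hx3, hx2, hx1⟩
      · intro i hi
        omega
      · intro m hm
        exact Nat.find_min hex hm
    · refine ⟨hW.d, hW.i, ?_, ?_⟩
      · intro v hv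
        exact ⟨by rw [dm_zero]; exact (hW.hU v hv).1, hW.e v hv⟩
      · exact hW.of
    · intro v hv
      rfl
    · intro i hi
      omega
    · intro h1
      omega
  | succ s ih =>
    obtain ⟨e, he, ih⟩ := ih
    have hth := th_pos hθ s
    have hth1 := th_lt hθ hθ1 s
    have hrr := rr_pos hθ hr s
    have hrr1 := rr_lt hθ hθ1 hr hr1 s
    have hr2 := rr_pos hθ hr (s + 1)
    have hr3 := rr_lt hθ hθ1 hr hr1 (s + 1)
    obtain ⟨K0, hK0, hkb⟩ := kb hrr hrr1
    obtain ⟨ε0, hε0, hε0δ, horb⟩ := orb h hth hth1 hrr hrr1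
    obtain ⟨ε1, hε1, hlem⟩ := Pool.Agent.H18.LA.lemA (C := K0) h hX hth hth1 hz hc hc' hrc
    -- the other critical points
    obtain ⟨εc, hεc, hcc⟩ : ∃ εc : ℝ, 0 < εc ∧ ∀ c' ∈ Cr, c' ≠ c → ∀ n, f^[n] z ∉ ball c' εc := by
      have hex : ∀ c' : ℂ, ∃ e : ℝ, 0 < e ∧ (c' ∈ Cr → c' ≠ c → ∀ n, f^[n] z ∉ ball c' e) := by
        intro c'
        by_cases h1 : c' ∈ Cr ∧ c' ≠ c
        · obtain ⟨e, he, h2⟩ := hc' c' h1.1 h1.2
          exact ⟨e, he, fun _ _ => h2⟩
        · exact ⟨1, one_pos, fun h2 h3 => absurd ⟨h2, h3⟩ h1⟩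
      choose ee hee hee2 using hex
      obtain ⟨c0, hc0, hmin⟩ := h.Cf.exists_minimalFor ee Cr ⟨c, hc⟩
      refine ⟨ee c0, hee c0, fun c' h1 h2 n hn => ?_⟩
      refine hee2 c' h1 h2 n (ball_subset_ball ?_ hn)
      rcases le_total (ee c') (ee c0) with h3 | h3
      · exact hmin h1 h3
      · exact h3
    obtain ⟨ε2, hε2, hsh⟩ := sh h hr2 hr3 hεc
    obtain ⟨e1, he1, h11, h12, h13, h14⟩ : ∃ e1 : ℝ, 0 < e1 ∧ e1 ≤ e ∧ e1 ≤ ε0 ∧ e1 ≤ ε1 ∧ e1 ≤ ε2 := by
      refine ⟨min (min e ε0) (min ε1 ε2), lt_min (lt_min he hε0) (lt_min hε1 hε2), ?_, ?_, ?_, ?_⟩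
      · exact (min_le_left _ _).trans (min_le_left _ _)
      · exact (min_le_left _ _).trans (min_le_right _ _)
      · exact (min_le_right _ _).trans (min_le_left _ _)
      · exact (min_le_right _ _).trans (min_le_right _ _)
    refine ⟨e1, he1, ?_⟩
    intro e' he' χ0 hW
    obtain ⟨k, t, α, x, Y, K, hY0, hT, hWd, hf, hα, hK1⟩ := ih e' (he'.trans h11) χ0 hW
    have he'0 : 0 < e' := by
      have h1 := hW.e 0 (mem_ball_self one_pos)
      rw [hW.c0] at h1
      exact pos_of_mem_ball h1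
    have hα1 : ∀ i < s, ‖α i‖ < 1 := fun i hi => (hα i hi).trans_lt (th_lt hθ hθ1 i)
    have h0 : (0 : ℂ) ∈ ball (0 : ℂ) 1 := mem_ball_self one_pos
    -- the visit
    obtain ⟨hx1, hx2, hx3⟩ := hT.tm s le_rfl
    have hx4 : ‖x s‖ ≤ rr θ r s := bb_rr hθ hθ1 hr hr1 hα _ hx1 hx2.le
    have hzJ : z ∈ J := hX.EJ hz
    rcases horb K c e' (Y s) (x s) z (t s) hcJ (he'.trans h12) hWd hzJ hx4 hx3.symm with ⟨g, hg1, hg2, hg3⟩ | hB
    · -- univalent: Lemma A
      refine absurd ?_ (hlem K (t s) c 0 e' (Y s) g hcJ (he'.trans h13) hWd (by rw [norm_zero]; exact hth.le)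
        (hT.c0 s le_rfl) hg1.diff (fun v hv => hg2 v hv))
      have h2 := (hkb g hg1.diff hg1.inj 0 (mem_closedBall_self hrr.le) (x s) (mem_closedBall_zero_iff.2 hx4)).2.2
      rw [zero_sub, norm_neg, hg3] at h2
      have h3 : ‖x s‖ ≤ 1 := hx4.trans hrr1.le
      have h5 : K0 * ‖deriv g 0‖ * ‖x s‖ ≤ K0 * ‖deriv g 0‖ * 1 := by
        refine mul_le_mul_of_nonneg_left h3 ?_
        have := lt_of_lt_of_le one_pos hK0
        positivity
      linarith
    · -- critical
      obtain ⟨i, l, hil, g, hg1, hg2, hg3, c1, hc1, a, v, Φ', hC, x0, hx01, hx02, hx03⟩ := hB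
      have hcc1 : c1 = c := by
        by_contra hne
        have h1 : ‖x0‖ ≤ rr θ r (s + 1) := by
          have h2 : ‖bet a x0‖ ≤ rr θ r s := by rwa [hx02]
          exact Real.le_sqrt_of_sq_le (bet_sq_le hrr1 hth1 hC.ca hx01 h2)
        have h3 : Φ' 0 ∈ J := by
          rw [hC.z0]
          exact h.CJ hc1
        have h4 := hsh (K + l + 1) Φ' c hcJ hC.wd.diff hC.wd.inj (fun v hv => ⟨(hC.wd.val v hv).1,
          ball_subset_ball (he'.trans h14) (hC.wd.val v hv).2⟩) ⟨0, mem_closedBall_self hr2.le, h3⟩ x0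
          (mem_closedBall_zero_iff.2 h1) 0 (mem_closedBall_self hr2.le)
        rw [hx03, hC.z0] at h4
        exact hcc c1 hc1 hne i (by rw [mem_ball, dist_eq_norm]; exact h4)
      subst hcc1
      obtain ⟨α', hα'⟩ : ∃ α' : ℕ → ℂ, α' = Function.update α s a := ⟨_, rfl⟩
      have ha1 : α' s = a := by
        rw [hα']
        exact Function.update_self s a α
      have ha2 : ∀ i < s, α' i = α i := fun i hi => by
        rw [hα']
        exact Function.update_of_ne (Nat.ne_of_lt hi) a α
      have hbb : ∀ i ≤ s, BB b1 α' i = BB b1 α i := fun i hi => bb_congr fun j hj => ha2 j (by omega)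
      have hbs : ∀ w, BB b1 α' (s + 1) w = BB b1 α s (bet a w) := by
        intro w
        rw [bb_succ, ha1, hbb s le_rfl]
      have haθ : ‖a‖ ≤ th θ s := hC.ca
      have ha' : ‖a‖ < 1 := haθ.trans_lt hth1
      have hstep : ∀ w ∈ ball (0 : ℂ) 1, f^[l + 1] (Φ' w) = Y s (bet a w) := by
        intro w hw
        rw [Function.iterate_succ_apply, (hC.val w hw).2]
        exact (hg2 _ (bet_lt ha' hw)).2
      have hbl : ∀ w ∈ ball (0 : ℂ) 1, bet a w ∈ ball (0 : ℂ) 1 := fun w hw => bet_lt ha' hw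
      have hfull : ∀ w ∈ ball (0 : ℂ) 1, f^[K + l + 1] (Φ' w) = χ0 (BB b1 α' (s + 1) w) := by
        intro w hw
        rw [show K + l + 1 = K + (l + 1) by ring, Function.iterate_add_apply, hstep w hw, hbs]
        exact hf _ (hbl w hw)
      refine ⟨Function.update k s (l + 1), Function.update t (s + 1) i, α', Function.update x (s + 1) x0,
        Function.update Y (s + 1) Φ', K + l + 1, ?_, ?_, ?_, ?_, ?_, ?_⟩
      · rw [Function.update_of_ne (by omega)]
        exact hY0
      · have hYo : ∀ j ≤ s, Function.update Y (s + 1) Φ' j = Y j := fun j hj => Function.update_of_ne (by omega) _ _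
        have hYn : Function.update Y (s + 1) Φ' (s + 1) = Φ' := Function.update_self _ _ _
        have hto : ∀ j ≤ s, Function.update t (s + 1) i j = t j := fun j hj => Function.update_of_ne (by omega) _ _
        have htn : Function.update t (s + 1) i (s + 1) = i := Function.update_self _ _ _
        have hxo : ∀ j ≤ s, Function.update x (s + 1) x0 j = x j := fun j hj => Function.update_of_ne (by omega) _ _
        have hxn : Function.update x (s + 1) x0 (s + 1) = x0 := Function.update_self _ _ _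
        have hko : ∀ j < s, Function.update k s (l + 1) j = k j := fun j hj => Function.update_of_ne (by omega) _ _
        have hkn : Function.update k s (l + 1) s = l + 1 := Function.update_self _ _ _
        refine ⟨?_, ?_, ?_, ?_, ?_, ?_, ?_, ?_, ?_, ?_, ?_, ?_, ?_⟩
        · intro j hj
          rcases Nat.lt_or_ge j (s + 1) with h1 | h1
          · rw [hYo j (by omega)]
            exact hT.d j (by omega)
          · obtain rfl : j = s + 1 := by omega
            rw [hYn]
            exact hC.wd.diff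
        · intro j hj
          rcases Nat.lt_or_ge j (s + 1) with h1 | h1
          · rw [hYo j (by omega)]
            exact hT.i j (by omega)
          · obtain rfl : j = s + 1 := by omega
            rw [hYn]
            exact hC.wd.inj
        · intro j hj
          rcases Nat.lt_or_ge j (s + 1) with h1 | h1
          · rw [hYo j (by omega)]
            exact hT.c0 j (by omega)
          · obtain rfl : j = s + 1 := by omega
            rw [hYn]
            exact hC.z0
        · intro j hj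
          rcases Nat.lt_or_ge j (s + 1) with h1 | h1
          · rw [hYo j (by omega)]
            exact hT.hU j (by omega)
          · obtain rfl : j = s + 1 := by omega
            rw [hYn]
            exact fun w hw => (hC.val w hw).1
        · intro j hj
          rcases Nat.lt_or_ge j (s + 1) with h1 | h1
          · rw [hYo j (by omega)]
            exact hT.sy j (by omega)
          · obtain rfl : j = s + 1 := by omega
            rw [hYn]
            intro w hw
            have hw' : -w ∈ ball (0 : ℂ) 1 := by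
              rw [mem_ball_zero_iff, norm_neg]
              exact mem_ball_zero_iff.1 hw
            rw [(hC.val _ hw').2, (hC.val _ hw).2, bet_neg]
        · intro j hj
          rcases Nat.lt_or_ge j s with h1 | h1
          · rw [hko j h1]
            exact hT.kp j h1
          · obtain rfl : j = s := by omega
            rw [hkn]
            omega
        · intro j hj w hw
          rcases Nat.lt_or_ge j s with h1 | h1
          · rw [hko j h1, hYo (j + 1) (by omega), hYo j (by omega), ha2 j h1]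
            exact hT.st j h1 w hw
          · obtain rfl : j = s := by omega
            rw [hkn, hYn, hYo j le_rfl, ha1, Bl_one]
            refine ⟨fun i hi => (hC.wd.val w hw).1.1 i (by omega), hstep w hw⟩
        · intro j hj
          rcases Nat.lt_or_ge j s with h1 | h1
          · rw [ha2 j h1]
            exact hT.al j h1
          · obtain rfl : j = s := by omega
            rw [ha1]
            exact ha'
        · intro j hj
          rcases Nat.lt_or_ge j s with h1 | h1
          · rw [ha2 j h1, hbb j h1.le]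
            exact hT.cv j h1
          · obtain rfl : j = s := by omega
            rw [ha1, hbb j le_rfl]
            by_contra hcon
            push Not at hcon
            have h2 : a ∈ ball (0 : ℂ) 1 := mem_ball_zero_iff.2 ha'
            have h3 := bb_lt hα1 a h2
            have h4 := hW.of _ hcon (mem_ball_zero_iff.1 h3)
            rw [← hf a h2] at h4
            have h5 : bet a 0 = a := by
              unfold bet
              simp
            have h6 := hstep 0 h0
            rw [h5, hC.z0] at h6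
            rw [← h6] at h4
            exact h4 (P_it h K (P_it h (l + 1) hcP))
        · intro j hj w hw h2
          rcases Nat.lt_or_ge j (s + 1) with h1 | h1
          · rw [hYo j (by omega)]
            rw [hbb j (by omega)] at h2
            exact hT.of j (by omega) w hw h2
          · obtain rfl : j = s + 1 := by omega
            rw [hYn]
            refine P_pre h (k := K + l + 1) ?_
            rw [hfull w hw]
            refine hW.of _ h2 ?_
            rw [hbs]
            exact mem_ball_zero_iff.1 (bb_lt hα1 _ (hbl w hw))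
        · intro j hj
          rcases Nat.lt_or_ge j (s + 1) with h1 | h1
          · rw [hYo j (by omega), hto j (by omega), hxo j (by omega), hbb j (by omega)]
            exact hT.tm j (by omega)
          · obtain rfl : j = s + 1 := by omega
            rw [hYn, htn, hxn]
            refine ⟨mem_ball_zero_iff.2 hx01, ?_, hx03⟩
            rw [hbs, hx02]
            exact hx2
        · intro j hj
          rcases Nat.lt_or_ge j s with h1 | h1
          · rw [hto (j + 1) (by omega), hto j (by omega)]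
            exact hT.td j h1
          · obtain rfl : j = s := by omega
            rw [htn, hto j le_rfl]
            omega
        · rw [hto 0 (by omega), hYo 0 (by omega)]
          exact hT.fe
      · rw [Function.update_self]
        exact hC.wd
      · intro w hw
        rw [Function.update_self]
        exact hfull w hw
      · intro j hj
        rcases Nat.lt_or_ge j s with h1 | h1
        · rw [ha2 j h1]
          exact hα j h1
        · obtain rfl : j = s := by omega
          rw [ha1]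
          exact haθ
      · intro _
        omega

/-- towers of every height exist over all sufficiently small base windows -/
theorem tw_ex (h : PS f U J P Cr δ η ρ) (hX : FX f U J E δ X hh μ b0) (hcP : c ∈ P) (hz : z ∈ E) (hc : c ∈ Cr)
    (hc' : ∀ c' ∈ Cr, c' ≠ c → ∃ ε : ℝ, 0 < ε ∧ ∀ n, f^[n] z ∉ ball c' ε)
    (hrc : ∀ ε : ℝ, 0 < ε → ∀ N : ℕ, ∃ n ≥ N, f^[n] z ∈ ball c ε)
    (hθ : 0 < θ) (hθr : θ < r) (hr1 : r < 1) : ∀ s : ℕ, ∃ e : ℝ, 0 < e ∧ ∀ χ0 : ℂ → ℂ,
      Wt f U J P δ c θ M e χ0 → ∃ (k t : ℕ → ℕ) (α x : ℕ → ℂ) (Y : ℕ → ℂ → ℂ), Y 0 = χ0 ∧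
        Tw f U J P δ c z θ r s k t α x Y := by
  intro s
  obtain ⟨e, he, h1⟩ := tw_strong h hX hcP hz hc hc' hrc hθ hθr hr1 s
  refine ⟨e, he, fun χ0 hW => ?_⟩
  obtain ⟨k, t, α, x, Y, K, h2, h3, -⟩ := h1 e le_rfl χ0 hW
  exact ⟨k, t, α, x, Y, h2, h3⟩

end Pool.Agent.H64.XL
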