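import Pool.Agent.H64.XL.Xs
import Pool.Agent.H64.XL.Ex
import Pool.Agent.H65.RL.Ops
import Pool.Agent.H65.RL.Ext
import Pool.Agent.H65.RL.Fmlt
import Pool.Agent.H15.TY.Main

/-!
# ROB => DIM, chapter X: the lift system of the frames, and the data of GEO (one Julia critical point)
-/

set_option autoImplicit false

open Filter Topology Metric Set MeasureTheory

namespace Pool.Agent.H64.XL

open Pool.Agent.H56.UD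
open Pool.Agent.H66.GEO (Bl BB)
open Pool.Agent.H23.XW (TS WL Xn Tn)

variable {f : ℂ → ℂ} {U J P E : Set ℂ} {δ b0 : ℝ} {η : ℂ → ℂ → ℂ} {ρ : ℝ} {X hh μ : ℂ → ℂ} {c z : ℂ} {θ θ' r M : ℝ}
  {ε : ℕ → ℝ} {m : ℕ → ℕ} {y : ℕ → ℂ} {χ g : ℕ → ℂ → ℂ} {𝒰 : Ultrafilter ℕ} {R σ : ℕ → ℂ}

/-- the lift system of the frames -/
theorem ls_of (h : PS f U J P {c} δ η ρ) (hX : FX f U J E δ X hh μ b0) (hcP : c ∈ P) (hz : z ∈ E)
    (hrc : Pool.Agent.H44.LA.Rc f c z) (hR : ∀ n, R n ≠ 0) (hRt : Tendsto R (𝒰 : Filter ℕ) (𝓝 0)) (hσ : ∀ n, σ n ≠ 0)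
    (hσt : Tendsto σ (𝒰 : Filter ℕ) (𝓝 0)) :
    Pool.Agent.H66.GEO.LS (Ph 𝒰 (Pn P (fun _ => c) R))
      (Lr 𝒰 (Fn f (fun _ => z) m (fun _ => c) R σ) (Dn f U J δ (fun _ => z) m σ) (Pn P (fun _ => c) R)) := by
  have hT : LT 𝒰 (Fn f (fun _ => z) m (fun _ => c) R σ) (Dn f U J δ (fun _ => z) m σ) (Pn P (fun _ => c) R) :=
    Pool.Agent.H65.RL.lt_of h (fun _ => hcP) hR hσ hRt
  have hcC : c ∈ ({c} : Set ℂ) := rfl
  exact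
    { Qc := Pool.Agent.H65.RL.rl_Qc
      Q0 := Pool.Agent.H65.RL.rl_Q0 hT
      op := Pool.Agent.H65.RL.rl_op
      dH := Pool.Agent.H65.RL.rl_dH
      dG := Pool.Agent.H65.RL.rl_dG hT
      sub := Pool.Agent.H65.RL.rl_sub
      ext := fun h1 S' H' u u' => Pool.Agent.H65.RL.rl_ext hT h1 S' H' u u'
      gal := fun h1 h2 => Pool.Agent.H41.XF.lr_gal h hX hT (fun _ => hz) hR hσ hσt h1 h2
      dis := Pool.Agent.H65.RL.rl_dis hT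
      typ := fun φ G d h1 h2 h3 h4 h5 h6 h7 => Pool.Agent.H15.TY.lr_typ h hX hcP hz hrc hR hRt hT φ G d h1 h2 h3 h4 h5 h6 h7
      sym := fun h1 h2 => Pool.Agent.H41.XF.lr_sym h hX hcC hT (fun _ => rfl) (fun _ => hz) hR hRt hσ hσt h1 h2 }

/-- the data of GEO -/
theorem x_geo (h : PS f U J P {c} δ η ρ) (hX : FX f U J E δ X hh μ b0) (hcP : c ∈ P) (hz : z ∈ E)
    (hrc : Pool.Agent.H44.LA.Rc f c z) (hN : Nvs f U J P δ c z θ θ' M ε m y χ g) (hy : ∀ n, ‖y n‖ = θ') :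
    ∃ (Q : Set ℂ) (Lf : Set ℂ → (ℂ → ℂ) → (ℂ → ℂ) → Prop) (r : ℝ) (φ F : ℕ → ℂ → ℂ) (α : ℕ → ℂ),
      Pool.Agent.H66.GEO.LS Q Lf ∧ Pool.Agent.H66.GEO.XS Q Lf θ r φ F b1 α := by
  have hcC : c ∈ ({c} : Set ℂ) := rfl
  have hc' : ∀ c' ∈ ({c} : Set ℂ), c' ≠ c → ∃ ε : ℝ, 0 < ε ∧ ∀ n, f^[n] z ∉ ball c' ε := fun c' h1 h2 => absurd h1 h2
  obtain ⟨𝒰, hU⟩ : ∃ 𝒰 : Ultrafilter ℕ, (𝒰 : Filter ℕ) ≤ atTop := ⟨Ultrafilter.of atTop, Ultrafilter.of_le atTop⟩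
  obtain ⟨r, hr, hr1⟩ := exists_between (hN.θθ.trans hN.θ1)
  obtain ⟨S, k, t, α, x, Y, hY, hT⟩ := ts_ex h hX hcP hz hcC hc' hrc hN hr hr1 𝒰 hU
  have hRY : Rs χ = fun n => deriv (Y n 0) 0 := by
    funext n
    rw [hY n]
    rfl
  have hR := rs_ne hN
  have hRt := rs_t hU hN
  have hσ := ss_ne hN
  have hσt := ss_t hU hN
  have hLT : LT 𝒰 (Fn f (fun _ => z) m (fun _ => c) (Rs χ) (Ss χ g y)) (Dn f U J δ (fun _ => z) m (Ss χ g y))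
      (Pn P (fun _ => c) (Rs χ)) := Pool.Agent.H65.RL.lt_of h (fun _ => hcP) hR hσ hRt
  obtain ⟨φ, F, α', hW⟩ := Pool.Agent.H23.XW.ts_lim h hcC hT
  have hF0 := Pool.Agent.H23.XW.ts_F0 h hcC hT hW
  rw [← hRY] at hW
  have hex := ex_lr h hU hN hy hLT (hW.dφ 0) (by
    refine (hW.cφ 0).congr ?_
    intro n v _
    show (Y n 0 v - c) / deriv (Y n 0) 0 = (χ n v - c) / Rs χ n
    rw [hY n]
    rfl)
  exact ⟨_, _, r, φ, F, α', ls_of h hX hcP hz hrc hR hRt hσ hσt,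
    xs_of h hX hcC hT hRY hW hLT (fun _ => hz) hR hσ hσt hex hF0⟩

end Pool.Agent.H64.XL
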