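import Pool.Agent.H64.XL.Lsx
import Pool.Agent.H66.GEO.MAIN

/-!
# ROB => DIM, chapter X: end theorem (one Julia critical point)

Windows at the critical point with frames in their collars (`Nvs`) are impossible.
-/

set_option autoImplicit false

open Filter Topology Metric Set MeasureTheory

namespace Pool.Agent.H64.XL

open Pool.Agent.H56.UD

theorem x_false {f : ℂ → ℂ} {U J P E : Set ℂ} {δ b0 : ℝ} {η : ℂ → ℂ → ℂ} {ρ : ℝ} {X hh μ : ℂ → ℂ} {c z : ℂ} {θ θ' M : ℝ}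
    {ε : ℕ → ℝ} {m : ℕ → ℕ} {y : ℕ → ℂ} {χ g : ℕ → ℂ → ℂ}
    (h : PS f U J P {c} δ η ρ) (hX : FX f U J E δ X hh μ b0) (hcP : c ∈ P) (hz : z ∈ E)
    (hrc : ∀ ε : ℝ, 0 < ε → ∀ N : ℕ, ∃ n ≥ N, f^[n] z ∈ ball c ε) (hN : Nvs f U J P δ c z θ θ' M ε m y χ g)
    (hy : ∀ n, ‖y n‖ = θ') : False := by
  obtain ⟨Q, Lf, r, φ, F, α, h1, h2⟩ := x_geo h hX hcP hz hrc hN hy
  exact Pool.Agent.H66.GEO.geo h1 h2

end Pool.Agent.H64.XL
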