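import Pool.Agent.H64.XL.Seq
import Pool.Agent.H64.XL.TwEx
import Pool.Agent.H3.SZ.Tow
import Pool.Agent.H23.XW.Defs

/-!
# ROB => DIM, chapter X: sequences of towers along an ultrafilter, with sizes and crossing points (`TS` of H23/XW)
-/

set_option autoImplicit false

open Filter Topology Metric Set MeasureTheory

namespace Pool.Agent.H64.XL

open Pool.Agent.H56.UD
open Pool.Agent.H66.GEO (Bl BB)
open Pool.Agent.H23.XW (TS)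

variable {f : ℂ → ℂ} {U J P Cr E : Set ℂ} {δ b0 : ℝ} {η : ℂ → ℂ → ℂ} {ρ : ℝ} {X hh μ : ℂ → ℂ} {c z : ℂ} {θ θ' r M : ℝ}
  {ε : ℕ → ℝ} {m : ℕ → ℕ} {y : ℕ → ℂ} {χ g : ℕ → ℂ → ℂ}

theorem ts_ex (h : PS f U J P Cr δ η ρ) (hX : FX f U J E δ X hh μ b0) (hcP : c ∈ P) (hz : z ∈ E) (hc : c ∈ Cr)
    (hc' : ∀ c' ∈ Cr, c' ≠ c → ∃ ε : ℝ, 0 < ε ∧ ∀ n, f^[n] z ∉ ball c' ε)
    (hrc : ∀ ε : ℝ, 0 < ε → ∀ N : ℕ, ∃ n ≥ N, f^[n] z ∈ ball c ε) (hN : Nvs f U J P δ c z θ θ' M ε m y χ g)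
    (hθr : θ < r) (hr1 : r < 1) (𝒰 : Ultrafilter ℕ) (hU : (𝒰 : Filter ℕ) ≤ atTop) :
    ∃ (S : ℕ → ℕ) (k t : ℕ → ℕ → ℕ) (α x : ℕ → ℕ → ℂ) (Y : ℕ → ℕ → ℂ → ℂ), (∀ n, Y n 0 = χ n) ∧
      TS 𝒰 f U J P δ c z θ r M ε S k t α x Y := by
  have hcJ : c ∈ J := h.PJ hcP
  have hr0 : 0 < r := hN.θ0.trans hθr
  have hθ1 : θ < 1 := hθr.trans hr1
  obtain ⟨S, k, t, α, x, Y, hS, hY, hT⟩ := seq_tw (tw_ex h hX hcP hz hc hc' hrc hN.θ0 hθr hr1) hN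
  have hTU : ∀ᶠ n in (𝒰 : Filter ℕ), Tw f U J P δ c z θ r (S n) (k n) (t n) (α n) (x n) (Y n) := hU hT
  have hSU : ∀ s : ℕ, ∀ᶠ n in (𝒰 : Filter ℕ), s ≤ S n := fun s => hU (hS.eventually_ge_atTop s)
  have hε : Tendsto ε (𝒰 : Filter ℕ) (𝓝 0) := hN.εt.mono_left hU
  have hW : ∀ n, Wt f U J P δ c θ M (ε n) (Y n 0) := fun n => by
    rw [hY n]
    exact hN.w n
  refine ⟨S, k, t, α, x, Y, hY, hN.θ0, hθr, hr1, hε, Eventually.of_forall hW, hTU, hSU, ?_, ?_, ?_⟩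
  · intro s
    obtain ⟨κ, hκ, h1⟩ := Pool.Agent.H3.SZ.tw_lo hθ1 hr0 hr1 s
    refine ⟨κ, hκ, ?_⟩
    filter_upwards [hTU, hSU s] with n h2 h3
    exact h1 h2 h3
  · intro s
    obtain ⟨ε0, hε0, h1⟩ := Pool.Agent.H3.SZ.tw_up h hN.M1
    refine ⟨32 * M, ?_⟩
    filter_upwards [hTU, hSU s, hε.eventually_le_const hε0] with n h2 h3 h4
    exact h1 h2 hcJ (hW n) h4 s h3
  · intro s
    obtain ⟨ε0, hε0, h1⟩ := Pool.Agent.H3.SZ.tw_cr h hN.M1 hN.θ0.le hθr hr1 (i := s + 1) (by omega)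
    filter_upwards [hTU, hSU (s + 1), hε.eventually_le_const hε0] with n h2 h3 h4
    exact h1 h2 hcJ (hW n) h4 h3

end Pool.Agent.H64.XL
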