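import Pool.Agent.H64.XL.Tse
import Pool.Agent.H23.XW.Main
import Pool.Agent.H41.XF.Lr

/-!
# ROB => DIM, chapter X: the structure `XS` of H66/GEO for the limits of the towers
-/

set_option autoImplicit false

open Filter Topology Metric Set MeasureTheory

namespace Pool.Agent.H64.XL

open Pool.Agent.H56.UD
open Pool.Agent.H66.GEO (Bl BB)
open Pool.Agent.H23.XW (TS WL Xn Tn)

variable {f : ℂ → ℂ} {U J P Cr E : Set ℂ} {δ b0 : ℝ} {η : ℂ → ℂ → ℂ} {ρ : ℝ} {X hh μ : ℂ → ℂ} {c z : ℂ} {θ r M : ℝ}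
  {ε : ℕ → ℝ} {S : ℕ → ℕ} {k t : ℕ → ℕ → ℕ} {α x : ℕ → ℕ → ℂ} {χ : ℕ → ℕ → ℂ → ℂ} {𝒰 : Ultrafilter ℕ} {m : ℕ → ℕ}
  {R σ : ℕ → ℂ} {zz : ℕ → ℂ}

/-- the field `pb` -/
theorem xs_pb (h : PS f U J P Cr δ η ρ) (hX : FX f U J E δ X hh μ b0) (hcC : c ∈ Cr) (hT : TS 𝒰 f U J P δ c z θ r M ε S k t α x χ)
    {φ F : ℕ → ℂ → ℂ} {α' : ℕ → ℂ} (hR : R = fun n => deriv (χ n 0) 0)
    (hW : WL 𝒰 θ r (Pn P (fun _ => c) R) (Xn c χ) (Tn f c k χ) α φ F α')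
    (hL : LT 𝒰 (Fn f zz m (fun _ => c) R σ) (Dn f U J δ zz m σ) (Pn P (fun _ => c) R))
    (hz : ∀ n, zz n ∈ E) (hR0 : ∀ n, R n ≠ 0) (hσ : ∀ n, σ n ≠ 0) (ht : Tendsto σ (𝒰 : Filter ℕ) (𝓝 0)) (s : ℕ)
    {T : Set ℂ} {H G' G : ℂ → ℂ}
    (h1 : Lr 𝒰 (Fn f zz m (fun _ => c) R σ) (Dn f U J δ zz m σ) (Pn P (fun _ => c) R) T H G')
    (h2 : ∀ u ∈ T, H u ∈ φ (s + 1) '' ball 0 1)
    (h3 : Lr 𝒰 (Fn f zz m (fun _ => c) R σ) (Dn f U J δ zz m σ) (Pn P (fun _ => c) R) T (fun u => F s (H u)) G) :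
    ∃ (a : ℝ) (b : ℂ), a ≠ 0 ∧ ∀ u ∈ T, G u = a * G' u + b := by
  subst hR
  rcases T.eq_empty_or_nonempty with rfl | ⟨u0, hu0⟩
  · exact ⟨1, 0, one_ne_zero, fun u hu => absurd hu (notMem_empty u)⟩
  obtain ⟨ho, hc⟩ := Pool.Agent.H23.XW.wl_loc hW s
  obtain ⟨r1, hr1, hb⟩ := Metric.nhds_basis_closedBall.mem_iff.1 (ho.mem_nhds (h2 u0 hu0))
  have hpb := Pool.Agent.H23.XW.ts_pb h hcC hT hW s (isCompact_closedBall (H u0) r1) hb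
  refine Pool.Agent.H41.XF.lr_pb (κ := fun n => k n s) (Tn := fun n => Tn f c k χ n s) (T := F s) h hX hL hz hR0 hσ ht h1 h3
    hu0 hr1 ?_ ?_ (Eventually.of_forall fun u => rfl)
  · filter_upwards [hpb] with n hn w hw
    exact hn w (ball_subset_closedBall hw)
  · exact hc.mono (ball_subset_closedBall.trans hb)

theorem xs_of (h : PS f U J P Cr δ η ρ) (hX : FX f U J E δ X hh μ b0) (hcC : c ∈ Cr) (hT : TS 𝒰 f U J P δ c z θ r M ε S k t α x χ)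
    {φ F : ℕ → ℂ → ℂ} {α' : ℕ → ℂ} (hR : R = fun n => deriv (χ n 0) 0)
    (hW : WL 𝒰 θ r (Pn P (fun _ => c) R) (Xn c χ) (Tn f c k χ) α φ F α')
    (hL : LT 𝒰 (Fn f zz m (fun _ => c) R σ) (Dn f U J δ zz m σ) (Pn P (fun _ => c) R))
    (hz : ∀ n, zz n ∈ E) (hR0 : ∀ n, R n ≠ 0) (hσ : ∀ n, σ n ≠ 0) (ht : Tendsto σ (𝒰 : Filter ℕ) (𝓝 0))
    (hex : ∃ (T : Set ℂ) (H G : ℂ → ℂ) (u x : ℂ),
      Lr 𝒰 (Fn f zz m (fun _ => c) R σ) (Dn f U J δ zz m σ) (Pn P (fun _ => c) R) T H G ∧ u ∈ T ∧ ‖x‖ < 1 ∧ θ < ‖x‖ ∧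
      H u = φ 0 x) (hF0 : F 0 0 ≠ 0) :
    Pool.Agent.H66.GEO.XS (Ph 𝒰 (Pn P (fun _ => c) R))
      (Lr 𝒰 (Fn f zz m (fun _ => c) R σ) (Dn f U J δ zz m σ) (Pn P (fun _ => c) R)) θ r φ F b1 α' where
  th0 := hT.θ0
  thr := hT.θr
  r1 := hT.r1
  dφ := hW.dφ
  iφ := hW.iφ
  oφ := hW.oφ
  bφ := hW.bφ
  hω := fun s => by
    show ‖(1 : ℂ)‖ = 1
    exact norm_one
  hα := hW.hα
  cv := fun s => by
    show ‖BB b1 α' s (1 * α' s)‖ ≤ θ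
    rw [one_mul]
    exact hW.cv s
  dF := hW.dF
  rel := hW.rel
  off := hW.off
  pb := fun s {T H G' G} h1 h2 h3 => xs_pb h hX hcC hT hR hW hL hz hR0 hσ ht s h1 h2 h3
  cr := hW.cr
  ex := hex
  F0 := hF0

end Pool.Agent.H64.XL
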